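import Pool.Agent.H52.CS3

set_option autoImplicit false

namespace Pool.Agent.Results.MP_b27533_gt.NotEllipsoid

open Set MeasureTheory

variable {V : Type} [NormedAddCommGroup V] [InnerProductSpace ℝ V]

/-- The symmetry group of `A`: all (affine) isometries of `V` mapping `A` onto itself. -/
def Sym (A : Set V) : Set (V ≃ᵢ V) := {T | T '' A = A}

/-- Ellipsoids: images of the closed unit ball under invertible affine maps. -/
def Ellipsoid (E : Set V) : Prop :=
  ∃ (c : V) (T : V ≃ₗ[ℝ] V), E = (fun x => c + T x) '' Metric.closedBall 0 1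

/-- Euclidean balls. -/
def IsBall (E : Set V) : Prop := ∃ (c : V) (r : ℝ), 0 < r ∧ E = Metric.closedBall c r

/-- `G` is complete: every ellipsoid whose symmetry group contains `G` is a ball. -/
def Complete (G : Set (V ≃ᵢ V)) : Prop := ∀ E : Set V, Ellipsoid E → G ⊆ Sym E → IsBall E

/-- Completely symmetric: compact with interior points (so the centroid is defined), centroid
(Lebesgue average of the identity over `A`) at the origin, complete symmetry group. -/
def CompSym [FiniteDimensional ℝ V] [MeasurableSpace V] [BorelSpace V] (A : Set V) : Prop :=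
  IsCompact A ∧ (interior A).Nonempty ∧ (⨍ x in A, x) = 0 ∧ Complete (Sym A)

/-- Images of completely symmetric sets under invertible linear maps. -/
def LinCS [FiniteDimensional ℝ V] [MeasurableSpace V] [BorelSpace V] (B : Set V) : Prop :=
  ∃ (A : Set V) (T : V ≃ₗ[ℝ] V), CompSym A ∧ B = T '' A

/-- The orthogonal projection of `K` onto `W`, as a subset of the Euclidean space `W`. -/
def Proj [FiniteDimensional ℝ V] (W : Submodule ℝ V) (K : Set V) : Set W :=
  W.orthogonalProjectionOnto '' K

/-- Every hyperplane projection of `K` is a linear image of a completely symmetric set. -/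
def AllProj [FiniteDimensional ℝ V] [MeasurableSpace V] [BorelSpace V] (K : Set V) : Prop :=
  ∀ u : V, ‖u‖ = 1 → LinCS (Proj (ℝ ∙ u)ᗮ K)

theorem result : ∃ K : Set (EuclideanSpace ℝ (Fin 3)), IsCompact K ∧ Convex ℝ K ∧
    (interior K).Nonempty ∧ AllProj K ∧ ¬ Ellipsoid K :=
  Pool.Agent.H52.CS.main4

end Pool.Agent.Results.MP_b27533_gt.NotEllipsoid
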